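import Mathlib

set_option autoImplicit false

namespace Pool.Agent.Lib.MP_b1ee0a_an

open MeasureTheory Complex

/-- The open interval `(-A, A)`, where `0 < A ≤ ∞`. -/
def Ival (A : EReal) : Set ℝ := {l : ℝ | ((|l| : ℝ) : EReal) < A}

/-- The value at `t` of the almost periodic polynomial `∑ c_l e^{i l t}` with finitely many
exponents `l ∈ (-A, A)` and complex coefficients `c`. -/
noncomputable def poly {A : EReal} (c : Ival A →₀ ℂ) (t : ℝ) : ℂ :=
  c.sum fun l a => a * cexp (I * (l : ℝ) * t)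

/-- The value `Φ_f(𝒫) = ∑ c_l f(l)` of the functional with `χ`-function `f` at the polynomial with
coefficients `c`. -/
noncomputable def func {A : EReal} (f : Ival A → ℂ) (c : Ival A →₀ ℂ) : ℂ :=
  c.sum fun l a => a * f l

/-- The class `R_A`: the functional `Φ_f` is bounded for the sup norm over `ℝ`. -/
def MemR {A : EReal} (f : Ival A → ℂ) : Prop :=
  ∃ M : ℝ, ∀ c : Ival A →₀ ℂ, ‖func f c‖ ≤ M * ⨆ t : ℝ, ‖poly c t‖

/-- The class `𝔓_A`: the functional `Φ_f` is bounded and non-negative, that is `Φ_f(𝒫) ≥ 0` for every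
polynomial `𝒫` with `𝒫(t) ≥ 0` for all real `t`. -/
def MemP {A : EReal} (f : Ival A → ℂ) : Prop :=
  MemR f ∧ ∀ c : Ival A →₀ ℂ, (∀ t : ℝ, 0 ≤ (poly c t).re ∧ (poly c t).im = 0) →
    0 ≤ (func f c).re ∧ (func f c).im = 0

/-- Lebesgue measurability of a function on `(-A, A)`. -/
def LebesgueMeasurable {A : EReal} (f : Ival A → ℂ) : Prop :=
  NullMeasurable f (Measure.comap ((↑) : Ival A → ℝ) volume)

/-- the opposite point of the symmetric interval -/
def opp {A : EReal} (l : Ival A) : Ival A := ⟨-(l : ℝ), by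
  have h := l.2
  simp only [Ival, Set.mem_ofPred_eq, abs_neg] at h ⊢
  exact h⟩

end Pool.Agent.Lib.MP_b1ee0a_an
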