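import Mathlib

set_option autoImplicit false

namespace Pool.Agent.Lib.MP_b1ee0a_an

open MeasureTheory Filter Topology Complex ComplexConjugate

/-- unimodular additive characters of `ℝ`, with the product sigma-algebra. -/
abbrev G : Type := {x : ℝ → ℂ // (∀ a b, x (a + b) = x a * x b) ∧ ∀ a, ‖x a‖ = 1}

/-- evaluation -/
def ev (l : ℝ) (x : G) : ℂ := x.1 l

lemma ev_add (a b : ℝ) (x : G) : ev (a + b) x = ev a x * ev b x := x.2.1 a b

lemma norm_ev (a : ℝ) (x : G) : ‖ev a x‖ = 1 := x.2.2 a

lemma ev_zero (x : G) : ev 0 x = 1 := by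
  have h := ev_add 0 0 x
  rw [add_zero] at h
  have h1 : ev 0 x ≠ 0 := by
    rw [← norm_ne_zero_iff, norm_ev]; norm_num
  exact (mul_right_eq_self₀.1 h.symm).resolve_right h1

lemma ev_neg (a : ℝ) (x : G) : ev (-a) x = conj (ev a x) := by
  have h := ev_add (-a) a x
  rw [neg_add_cancel, ev_zero] at h
  have h1 : ev a x * conj (ev a x) = 1 := by
    rw [Complex.mul_conj, Complex.normSq_eq_norm_sq, norm_ev]; norm_num
  calc ev (-a) x = ev (-a) x * (ev a x * conj (ev a x)) := by rw [h1, mul_one]
    _ = (ev (-a) x * ev a x) * conj (ev a x) := by ring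
    _ = conj (ev a x) := by rw [← h, one_mul]

lemma measurable_ev (a : ℝ) : Measurable (ev a) :=
  (measurable_pi_apply a).comp measurable_subtype_coe

lemma measurable_to_G {Y : Type*} [MeasurableSpace Y] {f : Y → G} (hf : ∀ a, Measurable fun y => ev a (f y)) :
    Measurable f :=
  Measurable.subtype_mk (measurable_pi_lambda _ hf)

/-- The transform. -/
noncomputable def F (μ : Measure G) (h : G → ℂ) (l : ℝ) : ℂ := ∫ x, ev l x * h x ∂μ

/-- `h` is integrable and its transform is Lebesgue measurable. -/
def Good (μ : Measure G) (h : G → ℂ) : Prop := Integrable h μ ∧ AEMeasurable (F μ h) volume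

variable {μ : Measure G} {h h₁ h₂ : G → ℂ}

lemma integrable_ev_mul (hh : Integrable h μ) (l : ℝ) : Integrable (fun x => ev l x * h x) μ := by
  refine hh.bdd_mul (c := 1) (measurable_ev l).aestronglyMeasurable (ae_of_all _ fun x => ?_)
  rw [norm_ev]

lemma Good.add (H₁ : Good μ h₁) (H₂ : Good μ h₂) : Good μ (fun x => h₁ x + h₂ x) := by
  refine ⟨H₁.1.add H₂.1, ?_⟩
  have : F μ (fun x => h₁ x + h₂ x) = fun l => F μ h₁ l + F μ h₂ l := by
    funext l
    simp only [F]
    rw [← integral_add (integrable_ev_mul H₁.1 l) (integrable_ev_mul H₂.1 l)]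
    congr 1; funext x; ring
  rw [this]
  exact H₁.2.add H₂.2

lemma Good.const_mul (H : Good μ h) (c : ℂ) : Good μ (fun x => c * h x) := by
  refine ⟨H.1.const_mul c, ?_⟩
  have : F μ (fun x => c * h x) = fun l => c * F μ h l := by
    funext l
    simp only [F]
    rw [← integral_const_mul]
    congr 1; funext x; ring
  rw [this]
  exact H.2.const_mul c

lemma Good.sub (H₁ : Good μ h₁) (H₂ : Good μ h₂) : Good μ (fun x => h₁ x - h₂ x) := by
  have := H₁.add (H₂.const_mul (-1))
  refine ⟨H₁.1.sub H₂.1, ?_⟩
  have h2 : (fun x => h₁ x - h₂ x) = fun x => h₁ x + (-1) * h₂ x := by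
    funext x; ring
  rw [h2]
  exact this.2

lemma Good.congr (H : Good μ h₁) (hh : h₁ =ᵐ[μ] h₂) : Good μ h₂ := by
  refine ⟨H.1.congr hh, ?_⟩
  have : F μ h₂ = F μ h₁ := by
    funext l
    simp only [F]
    refine integral_congr_ae (hh.mono fun x hx => ?_)
    simp only [hx]
  rw [this]
  exact H.2

lemma Good.ev_mul (H : Good μ h) (a : ℝ) : Good μ (fun x => ev a x * h x) := by
  refine ⟨integrable_ev_mul H.1 a, ?_⟩
  have : F μ (fun x => ev a x * h x) = fun l => F μ h (l + a) := by
    funext l
    simp only [F]
    congr 1; funext x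
    rw [ev_add]; ring
  rw [this]
  exact H.2.comp_quasiMeasurePreserving (measurePreserving_add_right volume a).quasiMeasurePreserving

/-- closedness under dominated limits -/
lemma Good.tendsto {b : ℕ → G → ℂ} {b' : G → ℂ} {bound : G → ℝ}
    (H : ∀ n, Good μ (b n)) (hbound : Integrable bound μ) (hb' : AEStronglyMeasurable b' μ)
    (hle : ∀ n, ∀ᵐ x ∂μ, ‖b n x‖ ≤ bound x) (hlim : ∀ᵐ x ∂μ, Tendsto (fun n => b n x) atTop (𝓝 (b' x))) :
    Good μ b' := by
  have hint : Integrable b' μ := by
    refine hbound.mono' hb' ?_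
    have h1 := ae_all_iff.2 hle
    filter_upwards [h1, hlim] with x hx1 hx2
    exact le_of_tendsto' hx2.norm hx1
  refine ⟨hint, ?_⟩
  refine aemeasurable_of_tendsto_metrizable_ae atTop (fun n => (H n).2) (ae_of_all _ fun l => ?_)
  refine tendsto_integral_of_dominated_convergence bound
    (fun n => (integrable_ev_mul (H n).1 l).aestronglyMeasurable) hbound (fun n => ?_) ?_
  · filter_upwards [hle n] with x hx
    rw [norm_mul, norm_ev, one_mul]; exact hx
  · filter_upwards [hlim] with x hx
    exact hx.const_mul _

/-- Multiplication by a continuous function of one character. -/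
lemma Good.continuous_mul (H : Good μ h) (a : ℝ) (φ : ℂ → ℂ) (hφ : Continuous φ) :
    Good μ (fun x => φ (ev a x) * h x) := by
  let S : Set ℂ := Metric.sphere 0 1
  have hS : ∀ x, ev a x ∈ S := fun x => by simp [S, norm_ev]
  let ea : G → S := fun x => ⟨ev a x, hS x⟩
  -- the algebra of admissible multipliers
  have key : ∀ ψ ∈ (polynomialFunctions S).starClosure, ∀ h, Good μ h →
      Good μ (fun x => ψ (ea x) * h x) := by
    intro ψ hψ
    rw [polynomialFunctions.starClosure_eq_adjoin_X, ← StarSubalgebra.mem_toSubalgebra,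
      StarAlgebra.adjoin_toSubalgebra] at hψ
    refine Algebra.adjoin_induction (p := fun ψ _ => ∀ h, Good μ h →
      Good μ (fun x => ψ (ea x) * h x)) ?_ ?_ ?_ ?_ hψ
    · intro ψ hψ h H
      rcases hψ with hψ | hψ
      · rw [Set.mem_singleton_iff] at hψ
        subst hψ
        have := H.ev_mul a
        refine this.congr (ae_of_all _ fun x => ?_)
        simp [ea]
      · rw [Set.star_singleton, Set.mem_singleton_iff] at hψ
        subst hψ
        have := H.ev_mul (-a)
        refine this.congr (ae_of_all _ fun x => ?_)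
        simp [ea, ev_neg]
    · intro c h H
      exact H.const_mul c
    · intro ψ₁ ψ₂ _ _ h1 h2 h H
      refine ((h1 h H).add (h2 h H)).congr (ae_of_all _ fun x => ?_)
      simp only [ContinuousMap.add_apply]; ring
    · intro ψ₁ ψ₂ _ _ h1 h2 h H
      refine (h1 _ (h2 h H)).congr (ae_of_all _ fun x => ?_)
      simp only [ContinuousMap.mul_apply]; ring
  have hdense := polynomialFunctions.starClosure_topologicalClosure S
  let ψ : C(S, ℂ) := ⟨fun z => φ z, hφ.comp continuous_subtype_val⟩
  have hψ : ψ ∈ (polynomialFunctions S).starClosure.topologicalClosure := by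
    rw [hdense]; exact StarSubalgebra.mem_top
  have hψ' : ψ ∈ closure ((polynomialFunctions S).starClosure : Set C(S, ℂ)) := hψ
  rw [mem_closure_iff_seq_limit] at hψ'
  obtain ⟨ψn, hψn1, hψn2⟩ := hψ'
  -- bounded
  obtain ⟨B, hB⟩ := hψn2.norm.bddAbove_range
  refine Good.tendsto (b := fun n x => ψn n (ea x) * h x) (bound := fun x => B * ‖h x‖)
    (fun n => key _ (hψn1 n) h H) (H.1.norm.const_mul B) ?_ (fun n => ae_of_all _ fun x => ?_)
    (ae_of_all _ fun x => ?_)
  · refine AEStronglyMeasurable.mul ?_ H.1.aestronglyMeasurable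
    exact (hφ.measurable.comp (measurable_ev a)).aestronglyMeasurable
  · rw [norm_mul]
    refine mul_le_mul_of_nonneg_right ?_ (norm_nonneg _)
    exact ((ψn n).norm_coe_le_norm _).trans (hB ⟨n, rfl⟩)
  · have h1 : Tendsto (fun n => ψn n (ea x)) atTop (𝓝 (ψ (ea x))) :=
      ((continuous_eval_const (ea x)).tendsto ψ).comp hψn2
    exact h1.mul_const _

/-- Sets by which one can multiply. -/
@[reducible] def mulSpace (μ : Measure G) : MeasurableSpace G where
  MeasurableSet' D := MeasurableSet D ∧ ∀ h, Good μ h → Good μ (fun x => D.indicator 1 x * h x)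
  measurableSet_empty := by
    refine ⟨MeasurableSet.empty, fun h H => ?_⟩
    refine (H.const_mul 0).congr (ae_of_all _ fun x => ?_)
    simp
  measurableSet_compl D hD := by
    refine ⟨hD.1.compl, fun h H => ?_⟩
    refine (H.sub (hD.2 h H)).congr (ae_of_all _ fun x => ?_)
    by_cases hx : x ∈ D <;> simp [hx]
  measurableSet_iUnion D hD := by
    refine ⟨MeasurableSet.iUnion fun n => (hD n).1, fun h H => ?_⟩
    have hfin : ∀ n, ∀ h, Good μ h → Good μ (fun x => (⋃ k ∈ Finset.range n, D k).indicator 1 x * h x) := by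
      intro n
      induction n with
      | zero =>
        intro h H
        refine (H.const_mul 0).congr (ae_of_all _ fun x => ?_)
        simp
      | succ n ih =>
        intro h H
        have h1 := ih h H
        have h2 := (hD n).2 _ (H.sub (ih h H))
        refine (h1.add h2).congr (ae_of_all _ fun x => ?_)
        simp only [Finset.mem_range]
        by_cases hx : x ∈ ⋃ k < n, D k
        · have hx' : x ∈ ⋃ k < n + 1, D k := by
            simp only [Set.mem_iUnion] at hx ⊢
            obtain ⟨k, hk, hk2⟩ := hx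
            exact ⟨k, by omega, hk2⟩
          rw [Set.indicator_of_mem hx, Set.indicator_of_mem hx']
          simp
        · by_cases hx2 : x ∈ D n
          · have hx' : x ∈ ⋃ k < n + 1, D k := by
              simp only [Set.mem_iUnion]
              exact ⟨n, by omega, hx2⟩
            rw [Set.indicator_of_notMem hx, Set.indicator_of_mem hx', Set.indicator_of_mem hx2]
            simp
          · have hx' : x ∉ ⋃ k < n + 1, D k := by
              simp only [Set.mem_iUnion] at hx ⊢
              rintro ⟨k, hk, hk2⟩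
              rcases Nat.lt_succ_iff_lt_or_eq.1 hk with h' | h'
              · exact hx ⟨k, h', hk2⟩
              · subst h'; exact hx2 hk2
            rw [Set.indicator_of_notMem hx, Set.indicator_of_notMem hx', Set.indicator_of_notMem hx2]
            simp
    refine Good.tendsto (b := fun n x => (⋃ k ∈ Finset.range n, D k).indicator 1 x * h x)
      (bound := fun x => ‖h x‖) (fun n => hfin n h H) H.1.norm ?_ (fun n => ae_of_all _ fun x => ?_)
      (ae_of_all _ fun x => ?_)
    · exact ((measurable_one.indicator (MeasurableSet.iUnion fun n =>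
        (hD n).1)).aestronglyMeasurable).mul H.1.aestronglyMeasurable
    · rw [norm_mul]
      refine mul_le_of_le_one_left (norm_nonneg _) ?_
      by_cases hx : x ∈ ⋃ k ∈ Finset.range n, D k
      · rw [Set.indicator_of_mem hx]; simp
      · rw [Set.indicator_of_notMem hx]; simp
    · by_cases hx : x ∈ ⋃ n, D n
      · obtain ⟨k, hk⟩ := Set.mem_iUnion.1 hx
        refine tendsto_const_nhds.congr' ?_
        filter_upwards [eventually_gt_atTop k] with n hn
        have hx' : x ∈ ⋃ k ∈ Finset.range n, D k := by
          simp only [Set.mem_iUnion, Finset.mem_range]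
          exact ⟨k, hn, hk⟩
        rw [Set.indicator_of_mem hx, Set.indicator_of_mem hx']
      · have hx' : ∀ n, x ∉ ⋃ k ∈ Finset.range n, D k := by
          intro n hn
          simp only [Set.mem_iUnion] at hn
          obtain ⟨k, _, hk⟩ := hn
          exact hx (Set.mem_iUnion.2 ⟨k, hk⟩)
        simp only [Set.indicator_of_notMem hx, Set.indicator_of_notMem (hx' _)]
        exact tendsto_const_nhds

lemma mulSpace_ge (μ : Measure G) : (inferInstance : MeasurableSpace G) ≤ mulSpace μ := by
  have h1 : ∀ a : ℝ, @Measurable G ℂ (mulSpace μ) _ (ev a) := by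
    intro a
    refine @measurable_of_isClosed ℂ G _ _ _ (mulSpace μ) (ev a) (fun O hO => ?_)
    refine ⟨measurable_ev a hO.measurableSet, fun h H => ?_⟩
    rcases Set.eq_empty_or_nonempty O with rfl | hne
    · refine (H.const_mul 0).congr (ae_of_all _ fun x => ?_)
      simp
    -- approximate the indicator of the closed set
    let φ : ℕ → ℂ → ℂ := fun n z => ((max 0 (1 - n * Metric.infDist z O) : ℝ) : ℂ)
    have hφ : ∀ n, Continuous (φ n) := fun n =>
      Complex.continuous_ofReal.comp (continuous_const.max
        (continuous_const.sub (continuous_const.mul (Metric.continuous_infDist_pt O))))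
    refine Good.tendsto (b := fun n x => φ n (ev a x) * h x) (bound := fun x => ‖h x‖)
      (fun n => H.continuous_mul a (φ n) (hφ n)) H.1.norm ?_ (fun n => ae_of_all _ fun x => ?_)
      (ae_of_all _ fun x => ?_)
    · exact ((measurable_one.indicator (measurable_ev a
        hO.measurableSet)).aestronglyMeasurable).mul H.1.aestronglyMeasurable
    · rw [norm_mul]
      refine mul_le_of_le_one_left (norm_nonneg _) ?_
      simp only [φ]
      rw [Complex.norm_real, Real.norm_eq_abs, abs_of_nonneg (le_max_left _ _)]
      refine max_le zero_le_one ?_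
      have : 0 ≤ (n : ℝ) * Metric.infDist (ev a x) O := mul_nonneg (Nat.cast_nonneg _) Metric.infDist_nonneg
      linarith
    · refine Tendsto.mul_const _ ?_
      by_cases hx : ev a x ∈ O
      · have h2 : (ev a ⁻¹' O).indicator (1 : G → ℂ) x = 1 := Set.indicator_of_mem (by exact hx) _
        rw [h2]
        refine tendsto_const_nhds.congr (fun n => ?_)
        simp only [φ]
        rw [Metric.infDist_zero_of_mem hx]
        simp
      · have h2 : (ev a ⁻¹' O).indicator (1 : G → ℂ) x = 0 := Set.indicator_of_notMem (by exact hx) _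
        rw [h2]
        have hpos : 0 < Metric.infDist (ev a x) O := (hO.notMem_iff_infDist_pos hne).1 hx
        obtain ⟨N, hN⟩ := exists_nat_gt (1 / Metric.infDist (ev a x) O)
        refine tendsto_const_nhds.congr' ?_
        filter_upwards [eventually_ge_atTop N] with n hn
        simp only [φ]
        rw [div_lt_iff₀ hpos] at hN
        have : (N : ℝ) * Metric.infDist (ev a x) O ≤ n * Metric.infDist (ev a x) O :=
          mul_le_mul_of_nonneg_right (by exact_mod_cast hn) hpos.le
        rw [max_eq_left (by linarith)]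
        simp
  intro D hD
  have h2 : @Measurable G G (mulSpace μ) _ id := by
    refine @measurable_to_G G (mulSpace μ) id h1
  exact h2 hD

/-- Multiplication by indicators of measurable sets. -/
lemma Good.indicator_mul (H : Good μ h) {D : Set G} (hD : MeasurableSet D) :
    Good μ (fun x => D.indicator 1 x * h x) :=
  (mulSpace_ge μ D hD).2 h H

lemma Good.zero (μ : Measure G) : Good μ (fun _ => 0) := by
  refine ⟨integrable_zero _ _ _, ?_⟩
  have : F μ (fun _ => 0) = fun _ => 0 := by
    funext l; simp [F]
  rw [this]; exact aemeasurable_const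

/-- Multiplication by bounded measurable functions. -/
lemma Good.bdd_mul (H : Good μ h) {b : G → ℂ} (hb : Measurable b) {B : ℝ} (hB : ∀ x, ‖b x‖ ≤ B) :
    Good μ (fun x => b x * h x) := by
  have hsimple : ∀ s : SimpleFunc G ℂ, Good μ (fun x => s x * h x) := by
    intro s
    induction s using SimpleFunc.induction with
    | const c hs =>
      rename_i t
      refine ((H.indicator_mul hs).const_mul c).congr (ae_of_all _ fun x => ?_)
      by_cases hx : x ∈ t <;> simp [hx]
    | add hdisj h1 h2 =>
      refine (h1.add h2).congr (ae_of_all _ fun x => ?_)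
      simp only [SimpleFunc.coe_add, Pi.add_apply]; ring
  have hsm : StronglyMeasurable b := hb.stronglyMeasurable
  refine Good.tendsto (b := fun n x => hsm.approxBounded B n x * h x) (bound := fun x => B * ‖h x‖)
    (fun n => hsimple _) (H.1.norm.const_mul B) (hsm.aestronglyMeasurable.mul H.1.aestronglyMeasurable)
    (fun n => ae_of_all _ fun x => ?_) (ae_of_all _ fun x => ?_)
  · rw [norm_mul]
    have hB0 : 0 ≤ B := (norm_nonneg _).trans (hB x)
    exact mul_le_mul_of_nonneg_right (hsm.norm_approxBounded_le hB0 n x) (norm_nonneg _)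
  · exact (hsm.tendsto_approxBounded_of_norm_le (hB x)).mul_const _

/-- Any integrable function supported in a good set is good. -/
lemma Good.of_indicator {D : Set G} (H : Good μ (D.indicator 1)) {d : G → ℂ}
    (hd : Measurable d) (hdi : Integrable d μ) : Good μ (fun x => D.indicator 1 x * d x) := by
  have hmem : ∀ n : ℕ, MeasurableSet {x | ‖d x‖ ≤ n} := fun n =>
    measurableSet_le hd.norm measurable_const
  have h1 : ∀ n : ℕ, Good μ (fun x => ({x | ‖d x‖ ≤ n}.indicator d x) * D.indicator 1 x) := by
    intro n
    refine H.bdd_mul (hd.indicator (hmem n)) (B := n) (fun x => ?_)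
    by_cases hx : x ∈ {x | ‖d x‖ ≤ n}
    · rw [Set.indicator_of_mem hx]; exact hx
    · rw [Set.indicator_of_notMem hx, norm_zero]; positivity
  refine Good.tendsto (bound := fun x => ‖d x‖) h1 hdi.norm ?_ (fun n => ae_of_all _ fun x => ?_)
    (ae_of_all _ fun x => ?_)
  · exact H.1.aestronglyMeasurable.mul hdi.aestronglyMeasurable
  · rw [norm_mul]
    have e1 : ‖({x | ‖d x‖ ≤ n}.indicator d x)‖ ≤ ‖d x‖ := by
      by_cases hx : x ∈ {x | ‖d x‖ ≤ n}
      · rw [Set.indicator_of_mem hx]
      · rw [Set.indicator_of_notMem hx, norm_zero]; positivity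
    have e2 : ‖(D.indicator 1 x : ℂ)‖ ≤ 1 := by
      by_cases hx : x ∈ D
      · rw [Set.indicator_of_mem hx]; simp
      · rw [Set.indicator_of_notMem hx]; simp
    calc _ ≤ ‖d x‖ * 1 := mul_le_mul e1 e2 (norm_nonneg _) (norm_nonneg _)
      _ = ‖d x‖ := mul_one _
  · obtain ⟨N, hN⟩ := exists_nat_ge ‖d x‖
    refine tendsto_const_nhds.congr' ?_
    filter_upwards [eventually_ge_atTop N] with n hn
    have : x ∈ {x | ‖d x‖ ≤ n} := by
      show ‖d x‖ ≤ n
      exact hN.trans (by exact_mod_cast hn)
    rw [Set.indicator_of_mem this]; ring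

end Pool.Agent.Lib.MP_b1ee0a_an
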