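import Mathlib
import Pool.Agent.Lib.MP_b1ee0a_an.Good

set_option autoImplicit false

namespace Pool.Agent.Lib.MP_b1ee0a_an

open MeasureTheory Filter Topology Complex ComplexConjugate ProbabilityTheory

variable {μ : Measure G}

lemma indicator_union_eq (D D' : Set G) (x : G) :
    (D ∪ D').indicator (1 : G → ℂ) x = D.indicator 1 x + (D' \ D).indicator 1 x := by
  by_cases h1 : x ∈ D <;> by_cases h2 : x ∈ D' <;> simp [h1, h2]

/-- A maximal good set. -/
lemma exists_maximal (μ : Measure G) [IsFiniteMeasure μ] :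
    ∃ D : Set G, MeasurableSet D ∧ Good μ (D.indicator 1) ∧
      ∀ D', MeasurableSet D' → Good μ (D'.indicator 1) → μ (D' \ D) = 0 := by
  let 𝓑 : Set (Set G) := {D | MeasurableSet D ∧ Good μ (D.indicator 1)}
  have hempty : (∅ : Set G) ∈ 𝓑 := ⟨MeasurableSet.empty, by simpa using Good.zero μ⟩
  have hsub : ∀ D ∈ 𝓑, ∀ D', MeasurableSet D' → D' ⊆ D → D' ∈ 𝓑 := by
    intro D hD D' hD' hs
    refine ⟨hD', (hD.2.indicator_mul hD').congr (ae_of_all _ fun x => ?_)⟩
    show D'.indicator 1 x * D.indicator 1 x = D'.indicator 1 x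
    by_cases h : x ∈ D'
    · rw [Set.indicator_of_mem h, Set.indicator_of_mem (hs h)]; simp
    · rw [Set.indicator_of_notMem h]; simp
  have hunion : ∀ D ∈ 𝓑, ∀ D' ∈ 𝓑, D ∪ D' ∈ 𝓑 := by
    intro D hD D' hD'
    have h1 := hsub D' hD' (D' \ D) (hD'.1.diff hD.1) Set.sdiff_subset
    refine ⟨hD.1.union hD'.1, (hD.2.add h1.2).congr (ae_of_all _ fun x => ?_)⟩
    exact (indicator_union_eq D D' x).symm
  -- supremum of measures
  let s : ENNReal := ⨆ D ∈ 𝓑, μ D
  have hs_le : s ≤ μ Set.univ := iSup₂_le fun D _ => measure_mono (Set.subset_univ _)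
  have hs_top : s ≠ ⊤ := ne_top_of_le_ne_top (measure_ne_top μ _) hs_le
  have hseq : ∀ n : ℕ, ∃ D ∈ 𝓑, s ≤ μ D + 1 / ((n : ENNReal) + 1) := by
    intro n
    have hpos : (0 : ENNReal) < 1 / ((n : ENNReal) + 1) := by
      rw [one_div]; exact ENNReal.inv_pos.2 (by finiteness)
    by_contra hcon
    push Not at hcon
    have h1 : s + 1 / ((n : ENNReal) + 1) ≤ s + 0 := by
      rw [add_zero]
      have h2 : ∀ D ∈ 𝓑, μ D + 1 / ((n : ENNReal) + 1) ≤ s := fun D hD => (hcon D hD).le
      show (⨆ D ∈ 𝓑, μ D) + 1 / ((n : ENNReal) + 1) ≤ s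
      rw [ENNReal.iSup_add]
      refine iSup_le fun D => ?_
      by_cases hD : D ∈ 𝓑
      · simp only [hD, iSup_pos]; exact h2 D hD
      · simp only [hD, iSup_false]
        rw [bot_eq_zero, zero_add]
        have := h2 ∅ hempty
        rwa [measure_empty, zero_add] at this
    rw [ENNReal.add_le_add_iff_left hs_top] at h1
    exact absurd hpos (not_lt.2 h1)
  choose D hD hDs using hseq
  let U : ℕ → Set G := fun n => ⋃ k ∈ Finset.range (n + 1), D k
  have hU : ∀ n, U n ∈ 𝓑 := by
    intro n
    induction n with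
    | zero => simpa [U] using hD 0
    | succ n ih =>
      have : U (n + 1) = U n ∪ D (n + 1) := by
        simp only [U]
        rw [Finset.range_add_one, Finset.set_biUnion_insert, Set.union_comm]
      rw [this]
      exact hunion _ ih _ (hD _)
  have hUmono : Monotone U := by
    intro a b hab
    exact Set.biUnion_subset_biUnion_left (by
      intro k hk
      simp only [Finset.coe_range, Set.mem_Iio] at hk ⊢
      omega)
  have hUeq : (⋃ n, U n) = ⋃ n, D n := by
    apply Set.Subset.antisymm
    · refine Set.iUnion_subset fun n => Set.iUnion₂_subset fun k _ => Set.subset_iUnion D k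
    · refine Set.iUnion_subset fun n => ?_
      exact (Set.subset_biUnion_of_mem (u := D) (show n ∈ Finset.range (n + 1) by simp)).trans
        (Set.subset_iUnion U n)
  have hDm : MeasurableSet (⋃ n, D n) := MeasurableSet.iUnion fun n => (hD n).1
  have hgood : Good μ ((⋃ n, D n).indicator 1) := by
    refine Good.tendsto (b := fun n => (U n).indicator 1) (bound := fun _ => 1) (fun n => (hU n).2)
      (integrable_const 1) ?_ (fun n => ae_of_all _ fun x => ?_) (ae_of_all _ fun x => ?_)
    · exact (measurable_one.indicator hDm).aestronglyMeasurable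
    · by_cases hx : x ∈ U n
      · rw [Set.indicator_of_mem hx]; simp
      · rw [Set.indicator_of_notMem hx]; simp
    · rw [← hUeq]
      exact (hUmono.tendsto_indicator U _ x).mono_right (pure_le_nhds _)
  refine ⟨⋃ n, D n, hDm, hgood, fun D' hD' H => ?_⟩
  -- maximality
  have hmem : (⋃ n, D n) ∪ D' ∈ 𝓑 := hunion _ ⟨hDm, hgood⟩ _ ⟨hD', H⟩
  have h1 : μ ((⋃ n, D n) ∪ D') ≤ s := le_iSup₂ (f := fun D _ => μ D) _ hmem
  have h2 : s ≤ μ (⋃ n, D n) := by
    refine ENNReal.le_of_forall_pos_le_add fun ε hε _ => ?_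
    obtain ⟨n, hn⟩ := ENNReal.exists_inv_nat_lt (a := (ε : ENNReal)) (by exact_mod_cast hε.ne')
    refine (hDs n).trans ?_
    have h3 : μ (D n) ≤ μ (⋃ n, D n) := measure_mono (Set.subset_iUnion D n)
    have h4 : 1 / ((n : ENNReal) + 1) ≤ ε := by
      rw [one_div]
      refine (ENNReal.inv_le_inv.2 ?_).trans hn.le
      exact le_self_add
    exact add_le_add h3 h4
  have h3 : (⋃ n, D n) ∪ D' = (⋃ n, D n) ∪ (D' \ ⋃ n, D n) := by rw [Set.union_sdiff_self]
  rw [h3, measure_union Set.disjoint_sdiff_right (hD'.diff hDm)] at h1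
  have h4 : μ (⋃ n, D n) + μ (D' \ ⋃ n, D n) ≤ μ (⋃ n, D n) + 0 := by
    rw [add_zero]; exact h1.trans h2
  rw [ENNReal.add_le_add_iff_left (measure_ne_top μ _)] at h4
  exact le_antisymm h4 bot_le

/-- The flow. -/
noncomputable def T (s : ℝ) (x : G) : G :=
  ⟨fun l => cexp (I * l * s) * x.1 l, by
    constructor
    · intro a b
      show cexp (I * ((a + b : ℝ) : ℂ) * s) * x.1 (a + b) = cexp (I * a * s) * x.1 a * (cexp (I * b * s) * x.1 b)
      rw [x.2.1 a b]
      push_cast
      rw [show I * ((a : ℂ) + b) * s = I * a * s + I * b * s by ring, Complex.exp_add]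
      ring
    · intro a
      rw [norm_mul, x.2.2 a, mul_one, show I * (a : ℂ) * s = ((a * s : ℝ) : ℂ) * I by push_cast; ring,
        Complex.norm_exp_ofReal_mul_I]⟩

lemma ev_T (l s : ℝ) (x : G) : ev l (T s x) = cexp (I * l * s) * ev l x := rfl

lemma T_add (s t : ℝ) (x : G) : T (s + t) x = T s (T t x) := by
  apply Subtype.ext
  funext l
  show cexp (I * l * ((s + t : ℝ) : ℂ)) * x.1 l = cexp (I * l * s) * (cexp (I * l * t) * x.1 l)
  push_cast
  rw [show I * (l : ℂ) * (s + t) = I * l * s + I * l * t by ring, Complex.exp_add]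
  ring

lemma T_zero (x : G) : T 0 x = x := by
  apply Subtype.ext
  funext l
  show cexp (I * l * ((0 : ℝ) : ℂ)) * x.1 l = x.1 l
  simp

lemma measurable_pi' : Measurable (fun p : G × ℝ => T p.2 p.1) := by
  refine measurable_to_G fun a => ?_
  have h1 : Measurable (fun p : G × ℝ => cexp (I * a * p.2)) := by fun_prop
  exact h1.mul ((measurable_ev a).comp measurable_fst)

lemma measurable_T (t : ℝ) : Measurable (T t) :=
  measurable_pi'.comp (measurable_id.prodMk measurable_const)

/-- the standard Gaussian on the line -/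
noncomputable abbrev γ : Measure ℝ := gaussianReal 0 1

lemma γ_ac : γ ≪ volume := gaussianReal_absolutelyContinuous 0 one_ne_zero

lemma ac_γ : volume ≪ γ := gaussianReal_absolutelyContinuous' 0 one_ne_zero

/-- convolution of a measure on `G` with the Gaussian along the flow -/
noncomputable def smooth (ν : Measure G) : Measure G := (ν.prod γ).map (fun p => T p.2 p.1)

instance (ν : Measure G) [IsFiniteMeasure ν] : IsFiniteMeasure (smooth ν) := by
  unfold smooth; infer_instance

lemma map_T_smooth_ac (ν : Measure G) [IsFiniteMeasure ν] (t : ℝ) :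
    (smooth ν).map (T t) ≪ smooth ν := by
  unfold smooth
  rw [Measure.map_map (measurable_T t) measurable_pi']
  have h1 : (T t ∘ fun p : G × ℝ => T p.2 p.1) = (fun p : G × ℝ => T p.2 p.1) ∘ Prod.map id (fun s => t + s) := by
    funext p
    simp only [Function.comp, Prod.map]
    rw [T_add]; rfl
  rw [h1, ← Measure.map_map measurable_pi' (measurable_id.prodMap (measurable_const_add t)),
    ← Measure.map_prod_map _ _ measurable_id (measurable_const_add t), Measure.map_id]
  refine Measure.AbsolutelyContinuous.map ?_ measurable_pi'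
  refine Measure.AbsolutelyContinuous.prod Measure.AbsolutelyContinuous.rfl ?_
  rw [gaussianReal_map_const_add]
  exact (gaussianReal_absolutelyContinuous _ one_ne_zero).trans ac_γ

/-- change of measure for the transform -/
lemma good_of_ac {ρ σ : Measure G} [IsFiniteMeasure ρ] [IsFiniteMeasure σ] (hac : σ ≪ ρ) {D : Set G}
    (hD : MeasurableSet D) (H : Good ρ (D.indicator 1)) :
    Good σ (D.indicator 1) := by
  refine ⟨(integrable_const (1 : ℂ)).indicator hD, ?_⟩
  have h1 : Good ρ (fun x => D.indicator 1 x * (((σ.rnDeriv ρ x).toReal : ℝ) : ℂ)) :=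
    H.of_indicator (Complex.measurable_ofReal.comp (Measure.measurable_rnDeriv σ ρ).ennreal_toReal)
      Measure.integrable_toReal_rnDeriv.ofReal
  have h2 : F σ (D.indicator 1) = F ρ (fun x => D.indicator 1 x * (((σ.rnDeriv ρ x).toReal : ℝ) : ℂ)) := by
    funext l
    simp only [F]
    rw [← integral_rnDeriv_smul hac]
    refine integral_congr_ae (ae_of_all _ fun x => ?_)
    simp only [Complex.real_smul]; ring
  rw [h2]
  exact h1.2

lemma F_map (σ : Measure G) (t : ℝ) (D : Set G) (hD : MeasurableSet D) (l : ℝ) :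
    F σ ((T t ⁻¹' D).indicator 1) l = cexp (-(I * l * t)) * F (σ.map (T t)) (D.indicator 1) l := by
  simp only [F]
  rw [integral_map (measurable_T t).aemeasurable, ← integral_const_mul]
  · refine integral_congr_ae (ae_of_all _ fun x => ?_)
    simp only
    rw [ev_T, ← mul_assoc, ← mul_assoc, ← Complex.exp_add, neg_add_cancel, Complex.exp_zero, one_mul]
    rfl
  · exact ((measurable_ev l).mul (measurable_one.indicator hD)).aestronglyMeasurable

/-- A measure without good sets stays so after smoothing along the flow. -/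
theorem smooth_no_good (ν : Measure G) [IsFiniteMeasure ν]
    (hν : ∀ C, MeasurableSet C → Good ν (C.indicator 1) → ν C = 0) :
    ∀ C, MeasurableSet C → Good (smooth ν) (C.indicator 1) → smooth ν C = 0 := by
  obtain ⟨D, hD, hDg, hDmax⟩ := exists_maximal (smooth ν)
  -- translates of D
  have hstep : ∀ t, smooth ν (T t ⁻¹' D \ D) = 0 := by
    intro t
    refine hDmax _ (measurable_T t hD) ⟨(integrable_const (1 : ℂ)).indicator (measurable_T t hD), ?_⟩
    have h1 := good_of_ac (map_T_smooth_ac ν t) hD hDg
    have h2 : F (smooth ν) ((T t ⁻¹' D).indicator 1) = fun l : ℝ =>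
        cexp (-(I * l * t)) * F ((smooth ν).map (T t)) (D.indicator 1) l := by
      funext l
      exact F_map _ t D hD l
    rw [h2]
    have h3 : Measurable (fun l : ℝ => cexp (-(I * l * t))) := by fun_prop
    exact h3.aemeasurable.mul h1.2
  have hstep' : ∀ t, smooth ν (D \ T t ⁻¹' D) = 0 := by
    intro t
    have h1 := hstep (-t)
    have h2 : (smooth ν).map (T t) (T (-t) ⁻¹' D \ D) = 0 := map_T_smooth_ac ν t h1
    rw [Measure.map_apply (measurable_T t) ((measurable_T (-t) hD).diff hD)] at h2
    have h3 : T t ⁻¹' (T (-t) ⁻¹' D \ D) = D \ T t ⁻¹' D := by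
      ext x
      simp only [Set.mem_preimage, Set.mem_sdiff]
      rw [← T_add, neg_add_cancel, T_zero]
    rwa [h3] at h2
  -- the invariant set
  let C : Set G := {x | γ {s | T s x ∉ D} = 0}
  have hZm : MeasurableSet {p : G × ℝ | T p.2 p.1 ∉ D} := (measurable_pi' hD).compl
  have hC : MeasurableSet C := by
    have h1 : Measurable (fun x => γ (Prod.mk x ⁻¹' {p : G × ℝ | T p.2 p.1 ∉ D})) :=
      measurable_measure_prodMk_left hZm
    exact h1 (measurableSet_singleton 0)
  have hCinv : ∀ t x, T t x ∈ C ↔ x ∈ C := by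
    have key : ∀ t x, x ∈ C → T t x ∈ C := by
      intro t x hx
      have h1 : volume {s | T s x ∉ D} = 0 := ac_γ hx
      have h2 : volume ((fun s => s + t) ⁻¹' {s | T s x ∉ D}) = 0 := by
        rw [measure_preimage_add_right]; exact h1
      refine γ_ac ?_
      refine measure_mono_null ?_ h2
      intro s hs
      simp only [Set.mem_preimage, Set.mem_ofPred_eq] at hs ⊢
      rwa [T_add]
    intro t x
    refine ⟨fun h => ?_, key t x⟩
    have := key (-t) _ h
    rwa [← T_add, neg_add_cancel, T_zero] at this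
  -- C = D almost everywhere
  have hCD : ∀ᵐ x ∂(smooth ν), (x ∈ C ↔ x ∈ D) := by
    have h1 : ∀ᵐ p ∂((smooth ν).prod γ), (p.1 ∈ D ↔ T p.2 p.1 ∈ D) := by
      have hm : MeasurableSet {p : G × ℝ | ¬ (p.1 ∈ D ↔ T p.2 p.1 ∈ D)} := by
        have e : {p : G × ℝ | ¬ (p.1 ∈ D ↔ T p.2 p.1 ∈ D)} =
            (Prod.fst ⁻¹' D \ (fun p : G × ℝ => T p.2 p.1) ⁻¹' D) ∪
            ((fun p : G × ℝ => T p.2 p.1) ⁻¹' D \ Prod.fst ⁻¹' D) := by
          ext p
          simp only [Set.mem_ofPred_eq, Set.mem_union, Set.mem_sdiff, Set.mem_preimage]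
          tauto
        rw [e]
        exact ((measurable_fst hD).diff (measurable_pi' hD)).union
          ((measurable_pi' hD).diff (measurable_fst hD))
      rw [ae_iff, ← Measure.prod_swap, Measure.map_apply measurable_swap hm,
        Measure.measure_prod_null (measurable_swap hm)]
      refine ae_of_all _ fun s => ?_
      show smooth ν _ = 0
      refine measure_mono_null (t := (D \ T s ⁻¹' D) ∪ (T s ⁻¹' D \ D)) ?_
        (measure_union_null (hstep' s) (hstep s))
      intro x hx
      simp only [Set.mem_preimage, Set.mem_ofPred_eq, Prod.swap_prod_mk] at hx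
      simp only [Set.mem_union, Set.mem_sdiff, Set.mem_preimage]
      tauto
    have h2 := Measure.ae_ae_of_ae_prod h1
    filter_upwards [h2] with x hx
    by_cases hxD : x ∈ D
    · simp only [hxD, true_iff, iff_true] at hx ⊢
      exact ae_iff.1 hx
    · simp only [hxD, false_iff, iff_false] at hx ⊢
      intro hxC
      have h3 : ∀ᵐ s ∂γ, T s x ∈ D := by
        rw [ae_iff]; exact hxC
      have h4 : ∀ᵐ s ∂γ, False := by
        filter_upwards [hx, h3] with s a b using a b
      have h5 := (ae_iff.1 h4)
      simp at h5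
  -- transform of C
  have hCg : Good (smooth ν) (C.indicator 1) := by
    refine hDg.congr ?_
    filter_upwards [hCD] with x hx
    by_cases h : x ∈ D
    · rw [Set.indicator_of_mem h, Set.indicator_of_mem (hx.2 h)]
    · rw [Set.indicator_of_notMem h, Set.indicator_of_notMem (fun h' => h (hx.1 h'))]
  have hFC : ∀ l, F (smooth ν) (C.indicator 1) l = charFun γ l * F ν (C.indicator 1) l := by
    intro l
    simp only [F]
    unfold smooth
    rw [integral_map measurable_pi'.aemeasurable]
    · have e : (fun p : G × ℝ => ev l (T p.2 p.1) * C.indicator 1 (T p.2 p.1)) =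
          fun p : G × ℝ => (ev l p.1 * C.indicator 1 p.1) * cexp (I * l * p.2) := by
        funext p
        rw [ev_T]
        have : C.indicator (1 : G → ℂ) (T p.2 p.1) = C.indicator 1 p.1 := by
          by_cases h : p.1 ∈ C
          · rw [Set.indicator_of_mem h, Set.indicator_of_mem ((hCinv _ _).2 h)]; rfl
          · rw [Set.indicator_of_notMem h, Set.indicator_of_notMem (fun h' => h ((hCinv _ _).1 h'))]
        rw [this]; ring
      rw [e, integral_prod_mul (fun x : G => ev l x * C.indicator 1 x) (fun s : ℝ => cexp (I * l * s)),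
        mul_comm]
      congr 1
      rw [charFun_apply_real]
      refine integral_congr_ae (ae_of_all _ fun s => ?_)
      simp only
      congr 1
      ring
    · exact ((measurable_ev l).mul (measurable_one.indicator hC)).aestronglyMeasurable
  have hνC : ν C = 0 := by
    refine hν C hC ⟨(integrable_const (1 : ℂ)).indicator hC, ?_⟩
    have hne : ∀ l, charFun γ l ≠ 0 := by
      intro l
      rw [charFun_gaussianReal]
      exact Complex.exp_ne_zero _
    have e : F ν (C.indicator 1) = fun l => (charFun γ l)⁻¹ * F (smooth ν) (C.indicator 1) l := by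
      funext l
      rw [hFC, inv_mul_cancel_left₀ (hne l)]
    rw [e]
    have h1 : Measurable (fun l : ℝ => (charFun γ l)⁻¹) := by
      have : (fun l : ℝ => (charFun γ l)) = fun l : ℝ => cexp (l * (0 : ℝ) * I - (1 : NNReal) * l ^ 2 / 2) := by
        funext l
        exact charFun_gaussianReal l
      have h2 : Measurable (fun l : ℝ => (charFun γ l)) := by
        rw [this]; fun_prop
      exact h2.inv
    exact h1.aemeasurable.mul hCg.2
  have hρC : smooth ν C = 0 := by
    unfold smooth
    rw [Measure.map_apply measurable_pi' hC]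
    have e : (fun p : G × ℝ => T p.2 p.1) ⁻¹' C = C ×ˢ Set.univ := by
      ext p
      simp only [Set.mem_preimage, Set.mem_prod, Set.mem_univ, and_true]
      exact hCinv _ _
    rw [e, Measure.prod_prod, hνC, zero_mul]
  have hρD : smooth ν D = 0 := by
    have : (D : Set G) =ᵐ[smooth ν] C := by
      filter_upwards [hCD] with x hx
      exact propext hx.symm
    rw [measure_congr this]; exact hρC
  intro C' hC' H
  have h1 := hDmax C' hC' H
  refine measure_mono_null (t := (C' \ D) ∪ D) ?_ (measure_union_null h1 hρD)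
  intro x hx
  by_cases h : x ∈ D
  · exact Or.inr h
  · exact Or.inl ⟨hx, h⟩

end Pool.Agent.Lib.MP_b1ee0a_an
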