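import Mathlib
import Pool.Agent.Lib.MP_b1ee0a_an.Defs
import Pool.Agent.Lib.MP_b1ee0a_an.Good

set_option autoImplicit false

namespace Pool.Agent.Lib.MP_b1ee0a_an

open MeasureTheory Filter Topology Complex ComplexConjugate

section decomposition

variable {X : Type*} [TopologicalSpace X] [CompactSpace X]

/-- A bounded functional on `C(X, ℝ)` is dominated by a positive one on the positive cone. -/
lemma exists_pos_dominating (Λ : C(X, ℝ) →ₗ[ℝ] ℝ) (M : ℝ) (hM : 0 ≤ M) (hΛ : ∀ g, Λ g ≤ M * ‖g‖) :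
    ∃ Λp : C(X, ℝ) →ₗ[ℝ] ℝ, (∀ g, 0 ≤ g → 0 ≤ Λp g) ∧ ∀ g, 0 ≤ g → Λ g ≤ Λp g := by
  let N : C(X, ℝ) → ℝ := fun g => ⨅ h : {h : C(X, ℝ) // 0 ≤ h}, (M * ‖(g + h.1) ⊔ 0‖ - Λ h.1)
  have hbdd : ∀ g, ∀ h : {h : C(X, ℝ) // 0 ≤ h}, -(M * ‖g‖) ≤ M * ‖(g + h.1) ⊔ 0‖ - Λ h.1 := by
    intro g h
    have h1 : ‖h.1‖ ≤ ‖(g + h.1) ⊔ 0‖ + ‖g‖ := by
      rw [ContinuousMap.norm_le _ (by positivity)]
      intro x
      have h2 : 0 ≤ h.1 x := h.2 x
      have h3 : |((g + h.1) ⊔ 0 : C(X, ℝ)) x| ≤ ‖(g + h.1) ⊔ 0‖ :=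
        ContinuousMap.norm_coe_le_norm ((g + h.1) ⊔ 0) x
      have h4 : |g x| ≤ ‖g‖ := ContinuousMap.norm_coe_le_norm g x
      rw [Real.norm_eq_abs, abs_of_nonneg h2]
      have h5 : ((g + h.1) ⊔ 0 : C(X, ℝ)) x = max (g x + h.1 x) 0 := rfl
      rw [h5] at h3
      have h6 := le_max_left (g x + h.1 x) 0
      have h7 := le_abs_self (max (g x + h.1 x) 0)
      have h8 := neg_abs_le (g x)
      linarith
    have h2 := hΛ h.1
    nlinarith
  have hB : ∀ g, BddBelow (Set.range fun h : {h : C(X, ℝ) // 0 ≤ h} => M * ‖(g + h.1) ⊔ 0‖ - Λ h.1) :=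
    fun g => ⟨-(M * ‖g‖), by rintro _ ⟨h, rfl⟩; exact hbdd g h⟩
  have hne : Nonempty {h : C(X, ℝ) // 0 ≤ h} := ⟨⟨0, le_rfl⟩⟩
  have hhom1 : ∀ c : ℝ, 0 < c → ∀ g, N (c • g) ≤ c * N g := by
    intro c hc g
    simp only [N]
    rw [Real.mul_iInf_of_nonneg hc.le]
    refine le_ciInf fun h => ?_
    have hch : 0 ≤ c • h.1 := fun x => mul_nonneg hc.le (h.2 x)
    refine (ciInf_le (hB (c • g)) ⟨c • h.1, hch⟩).trans (le_of_eq ?_)
    simp only
    have h1 : (c • g + c • h.1) ⊔ 0 = c • ((g + h.1) ⊔ 0) := by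
      ext x
      show max (c * g x + c * h.1 x) 0 = c * max (g x + h.1 x) 0
      rw [mul_max_of_nonneg _ _ hc.le, mul_add, mul_zero]
    rw [h1, norm_smul, Real.norm_of_nonneg hc.le, map_smul, smul_eq_mul]
    ring
  have hhom : ∀ c : ℝ, 0 < c → ∀ g, N (c • g) = c * N g := by
    intro c hc g
    refine le_antisymm (hhom1 c hc g) ?_
    have h1 := hhom1 c⁻¹ (inv_pos.2 hc) (c • g)
    rw [smul_smul, inv_mul_cancel₀ hc.ne', one_smul] at h1
    have h2 := mul_le_mul_of_nonneg_left h1 hc.le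
    rwa [← mul_assoc, mul_inv_cancel₀ hc.ne', one_mul] at h2
  have hadd : ∀ x y, N (x + y) ≤ N x + N y := by
    intro x y
    simp only [N]
    refine le_ciInf_add_ciInf fun h1 h2 => ?_
    refine (ciInf_le (hB (x + y)) ⟨h1.1 + h2.1, add_nonneg h1.2 h2.2⟩).trans ?_
    simp only
    have e : ‖(x + y + (h1.1 + h2.1)) ⊔ 0‖ ≤ ‖(x + h1.1) ⊔ 0‖ + ‖(y + h2.1) ⊔ 0‖ := by
      rw [ContinuousMap.norm_le _ (by positivity)]
      intro z
      have a1 : |((x + h1.1) ⊔ 0 : C(X, ℝ)) z| ≤ ‖(x + h1.1) ⊔ 0‖ :=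
        ContinuousMap.norm_coe_le_norm ((x + h1.1) ⊔ 0) z
      have a2 : |((y + h2.1) ⊔ 0 : C(X, ℝ)) z| ≤ ‖(y + h2.1) ⊔ 0‖ :=
        ContinuousMap.norm_coe_le_norm ((y + h2.1) ⊔ 0) z
      have b1 : ((x + h1.1) ⊔ 0 : C(X, ℝ)) z = max (x z + h1.1 z) 0 := rfl
      have b2 : ((y + h2.1) ⊔ 0 : C(X, ℝ)) z = max (y z + h2.1 z) 0 := rfl
      have b3 : ((x + y + (h1.1 + h2.1)) ⊔ 0 : C(X, ℝ)) z = max (x z + y z + (h1.1 z + h2.1 z)) 0 := rfl
      rw [b1, abs_of_nonneg (le_max_right _ _)] at a1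
      rw [b2, abs_of_nonneg (le_max_right _ _)] at a2
      rw [b3, Real.norm_eq_abs, abs_of_nonneg (le_max_right _ _)]
      have c1 := le_max_left (x z + h1.1 z) 0
      have c2 := le_max_left (y z + h2.1 z) 0
      have c3 := le_max_right (x z + h1.1 z) 0
      have c4 := le_max_right (y z + h2.1 z) 0
      exact max_le (by linarith) (by linarith)
    rw [map_add]
    nlinarith [mul_le_mul_of_nonneg_left e hM]
  obtain ⟨Λp, _, hΛp⟩ := exists_extension_of_le_sublinear (⊥ : C(X, ℝ) →ₗ.[ℝ] ℝ) N hhom hadd (by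
    rintro ⟨x, hx⟩
    have hx0 : x = 0 := (Submodule.mem_bot ℝ).1 hx
    subst hx0
    have h0 : N 0 = 0 := by
      have := hhom 2 (by norm_num) 0
      rw [smul_zero] at this
      linarith
    have h1 : (⊥ : C(X, ℝ) →ₗ.[ℝ] ℝ) ⟨0, hx⟩ = 0 := LinearPMap.map_zero _
    rw [h1]; exact h0.ge)
  refine ⟨Λp, fun g hg => ?_, fun g hg => ?_⟩
  · have h1 := hΛp (-g)
    have h2 : N (-g) ≤ 0 := by
      refine (ciInf_le (hB (-g)) ⟨0, le_rfl⟩).trans ?_
      simp only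
      have : (-g + 0) ⊔ 0 = 0 := by
        ext x
        show max (-g x + 0) 0 = 0
        have : 0 ≤ g x := hg x
        rw [max_eq_right]; linarith
      rw [this]; simp
    rw [map_neg] at h1
    linarith
  · have h1 := hΛp (-g)
    have h2 : N (-g) ≤ - Λ g := by
      refine (ciInf_le (hB (-g)) ⟨g, hg⟩).trans ?_
      simp only
      rw [neg_add_cancel, sup_idem, norm_zero]; simp
    rw [map_neg] at h1
    linarith

/-- Riesz representation, transported to `G`. -/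
lemma exists_measure [T2Space X] (Λ : C(X, ℝ) →ₗ[ℝ] ℝ) (hΛ : ∀ g, 0 ≤ g → 0 ≤ Λ g) (j : X → G)
    (hj : ∀ l, Continuous fun x => ev l (j x)) :
    ∃ μ : Measure G, IsFiniteMeasure μ ∧
      (∀ l, ∫ x, ev l x ∂μ = (Λ ⟨fun x => (ev l (j x)).re, Complex.continuous_re.comp (hj l)⟩ : ℂ) +
        I * (Λ ⟨fun x => (ev l (j x)).im, Complex.continuous_im.comp (hj l)⟩ : ℂ)) ∧
      ∀ P : G → Prop, MeasurableSet {x | P x} → (∀ x, P (j x)) → ∀ᵐ x ∂μ, P x := by
  borelize X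
  have hjm : Measurable j := measurable_to_G fun a => (hj a).measurable
  let Λ' : CompactlySupportedContinuousMap X ℝ →ₚ[ℝ] ℝ :=
    PositiveLinearMap.mk₀
      { toFun := fun g => Λ g.toContinuousMap
        map_add' := fun g g' => map_add Λ g.toContinuousMap g'.toContinuousMap
        map_smul' := fun c g => map_smul Λ c g.toContinuousMap }
      (fun g hg => hΛ _ fun x => hg x)
  have hint : ∀ g : C(X, ℝ), ∫ x, g x ∂(RealRMK.rieszMeasure Λ') = Λ g := by
    intro g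
    exact RealRMK.integral_rieszMeasure Λ' ⟨g, HasCompactSupport.of_compactSpace _⟩
  refine ⟨(RealRMK.rieszMeasure Λ').map j, inferInstance, fun l => ?_, fun P hP hPj => ?_⟩
  · rw [integral_map hjm.aemeasurable (measurable_ev l).aestronglyMeasurable]
    rw [← hint, ← hint]
    simp only [ContinuousMap.coe_mk]
    have hi : Integrable (fun x => ev l (j x)) (RealRMK.rieszMeasure Λ') :=
      (integrable_const (1 : ℝ)).mono' (hj l).measurable.aestronglyMeasurable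
        (ae_of_all _ fun x => (norm_ev l (j x)).le)
    rw [← integral_re_add_im hi]
    simp only [RCLike.re_to_complex, RCLike.im_to_complex]
    simp [mul_comm]
  · rw [ae_map_iff hjm.aemeasurable hP]
    exact ae_of_all _ hPj

end decomposition

section compactification

/-- the characters of the line as points of a product space -/
noncomputable def χ (t : ℝ) : ℝ → ℂ := fun l => cexp (I * l * t)

/-- the compact closure -/
def K : Set (ℝ → ℂ) := closure (Set.range χ)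

lemma norm_χ (t l : ℝ) : ‖χ t l‖ = 1 := by
  unfold χ
  rw [show I * (l : ℂ) * t = ((l * t : ℝ) : ℂ) * I by push_cast; ring, Complex.norm_exp_ofReal_mul_I]

lemma K_norm {x : ℝ → ℂ} (hx : x ∈ K) (l : ℝ) : ‖x l‖ = 1 := by
  have h1 : IsClosed {x : ℝ → ℂ | ‖x l‖ = 1} :=
    isClosed_eq (continuous_norm.comp (continuous_apply l)) continuous_const
  exact closure_minimal (by rintro _ ⟨t, rfl⟩; exact norm_χ t l) h1 hx

lemma K_add {x : ℝ → ℂ} (hx : x ∈ K) (a b : ℝ) : x (a + b) = x a * x b := by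
  have h1 : IsClosed {x : ℝ → ℂ | x (a + b) = x a * x b} :=
    isClosed_eq (continuous_apply _) ((continuous_apply a).mul (continuous_apply b))
  refine closure_minimal ?_ h1 hx
  rintro _ ⟨t, rfl⟩
  show cexp (I * ((a + b : ℝ) : ℂ) * t) = cexp (I * a * t) * cexp (I * b * t)
  rw [← Complex.exp_add]
  congr 1; push_cast; ring

/-- the inclusion of `K` in `G` -/
def jK (x : K) : G := ⟨x.1, ⟨K_add x.2, K_norm x.2⟩⟩

instance : CompactSpace K := by
  rw [← isCompact_iff_compactSpace]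
  have h1 : IsCompact (Set.pi Set.univ fun _ : ℝ => Metric.closedBall (0 : ℂ) 1) :=
    isCompact_univ_pi fun _ => isCompact_closedBall _ _
  refine h1.of_isClosed_subset isClosed_closure ?_
  intro x hx l _
  rw [mem_closedBall_zero_iff, K_norm hx l]

/-- evaluation as a continuous function on `K` -/
def eK (l : ℝ) : C(K, ℂ) := ⟨fun x => x.1 l, (continuous_apply l).comp continuous_subtype_val⟩

lemma eK_apply (l : ℝ) (x : K) : eK l x = ev l (jK x) := rfl

lemma eK_neg (l : ℝ) (x : K) : eK (-l) x = conj (eK l x) := by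
  rw [eK_apply, eK_apply, ev_neg]

/-- the point of `K` given by a real number -/
noncomputable def ptK (t : ℝ) : K := ⟨χ t, subset_closure ⟨t, rfl⟩⟩

lemma dense_ptK : DenseRange ptK := by
  intro x
  rw [mem_closure_iff_nhds]
  intro U hU
  rw [mem_nhds_subtype] at hU
  obtain ⟨V, hV, hVU⟩ := hU
  have hx : x.1 ∈ closure (Set.range χ) := x.2
  rw [mem_closure_iff_nhds] at hx
  obtain ⟨_, hy1, t, rfl⟩ := hx V hV
  exact ⟨ptK t, hVU hy1, t, rfl⟩

variable {A : EReal}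

/-- polynomial as a function on `K` -/
noncomputable def LK (A : EReal) : (Ival A →₀ ℂ) →ₗ[ℂ] C(K, ℂ) :=
  Finsupp.linearCombination ℂ fun l : Ival A => eK (l : ℝ)

lemma LK_apply (c : Ival A →₀ ℂ) (x : K) : LK A c x = c.sum fun l a => a * ev (l : ℝ) (jK x) := by
  unfold LK
  rw [Finsupp.linearCombination_apply, Finsupp.sum, Finsupp.sum, ContinuousMap.sum_apply]
  rfl

lemma LK_ptK (c : Ival A →₀ ℂ) (t : ℝ) : LK A c (ptK t) = poly c t := by
  rw [LK_apply]; rfl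

lemma bdd_poly (c : Ival A →₀ ℂ) : BddAbove (Set.range fun t : ℝ => ‖poly c t‖) := by
  refine ⟨‖LK A c‖, ?_⟩
  rintro _ ⟨t, rfl⟩
  simp only
  rw [← LK_ptK]
  exact ContinuousMap.norm_coe_le_norm _ _

lemma sup_poly_le (c : Ival A →₀ ℂ) : ⨆ t : ℝ, ‖poly c t‖ ≤ ‖LK A c‖ := by
  refine ciSup_le fun t => ?_
  rw [← LK_ptK]
  exact ContinuousMap.norm_coe_le_norm _ _

/-- pointwise bound on `K` -/
lemma norm_LK_le (c : Ival A →₀ ℂ) (x : K) : ‖LK A c x‖ ≤ ⨆ t : ℝ, ‖poly c t‖ := by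
  have h1 : IsClosed {x : K | ‖LK A c x‖ ≤ ⨆ t : ℝ, ‖poly c t‖} :=
    isClosed_le (continuous_norm.comp (LK A c).continuous) continuous_const
  have h2 : closure (Set.range ptK) ⊆ {x : K | ‖LK A c x‖ ≤ ⨆ t : ℝ, ‖poly c t‖} := by
    refine closure_minimal ?_ h1
    rintro _ ⟨t, rfl⟩
    show ‖LK A c (ptK t)‖ ≤ _
    rw [LK_ptK]
    exact le_ciSup (bdd_poly c) t
  exact h2 (dense_ptK x)

/-- pointwise positivity on `K` -/
lemma LK_nonneg (c : Ival A →₀ ℂ) (hc : ∀ t : ℝ, 0 ≤ (poly c t).re ∧ (poly c t).im = 0) (x : K) :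
    0 ≤ (LK A c x).re ∧ (LK A c x).im = 0 := by
  have h1 : IsClosed {x : K | 0 ≤ (LK A c x).re ∧ (LK A c x).im = 0} :=
    (isClosed_le continuous_const (Complex.continuous_re.comp (LK A c).continuous)).inter
      (isClosed_eq (Complex.continuous_im.comp (LK A c).continuous) continuous_const)
  have h2 : closure (Set.range ptK) ⊆ {x : K | 0 ≤ (LK A c x).re ∧ (LK A c x).im = 0} := by
    refine closure_minimal ?_ h1
    rintro _ ⟨t, rfl⟩
    show 0 ≤ (LK A c (ptK t)).re ∧ (LK A c (ptK t)).im = 0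
    rw [LK_ptK]
    exact hc t
  exact h2 (dense_ptK x)

/-- **Representation** of a Hermitian element of `R_A` as a difference of two measures. -/
theorem represent (f : Ival A → ℂ) (hf : MemR f) (hherm : ∀ l, f (opp l) = conj (f l)) :
    ∃ μp μm : Measure G, IsFiniteMeasure μp ∧ IsFiniteMeasure μm ∧
      (∀ l : Ival A, f l = ∫ x, ev (l : ℝ) x ∂μp - ∫ x, ev (l : ℝ) x ∂μm) ∧
      (∀ P : G → Prop, MeasurableSet {x | P x} → (∀ x, P (jK x)) → ∀ᵐ x ∂μp, P x) ∧
      (∀ P : G → Prop, MeasurableSet {x | P x} → (∀ x, P (jK x)) → ∀ᵐ x ∂μm, P x) := by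
  obtain ⟨M, hM⟩ := hf
  -- the functional on coefficients
  let Φ : (Ival A →₀ ℂ) →ₗ[ℂ] ℂ := Finsupp.linearCombination ℂ f
  have hΦ : ∀ c, Φ c = func f c := fun c => by
    simp only [Φ, func, Finsupp.linearCombination_apply, smul_eq_mul]
  have hbound : ∀ c, ‖Φ c‖ ≤ |M| * ‖LK A c‖ := by
    intro c
    rw [hΦ]
    have h0 : 0 ≤ ⨆ t : ℝ, ‖poly c t‖ := Real.iSup_nonneg fun t => norm_nonneg _
    calc ‖func f c‖ ≤ M * ⨆ t : ℝ, ‖poly c t‖ := hM c
      _ ≤ |M| * ⨆ t : ℝ, ‖poly c t‖ := mul_le_mul_of_nonneg_right (le_abs_self M) h0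
      _ ≤ |M| * ‖LK A c‖ := mul_le_mul_of_nonneg_left (sup_poly_le c) (abs_nonneg M)
  -- descend to the range
  let p : Submodule ℂ C(K, ℂ) := LinearMap.range (LK A)
  obtain ⟨s, hs⟩ := (LK A).rangeRestrict.exists_rightInverse_of_surjective (LinearMap.range_rangeRestrict _)
  have hs' : ∀ y : p, LK A (s y) = y := fun y => by
    have := LinearMap.congr_fun hs y
    exact congrArg Subtype.val this
  let g : p →L[ℂ] ℂ := (Φ.comp s).mkContinuous |M| (fun y => by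
    rw [LinearMap.comp_apply]
    refine (hbound _).trans ?_
    rw [hs' y]; rfl)
  obtain ⟨ψ, hψ, _⟩ := exists_extension_norm_eq p g
  have hψΦ : ∀ c, ψ (LK A c) = Φ c := by
    intro c
    have h1 := hψ ⟨LK A c, LinearMap.mem_range_self _ _⟩
    rw [h1]
    show Φ (s ⟨LK A c, _⟩) = Φ c
    rw [← sub_eq_zero, ← map_sub, ← norm_le_zero_iff]
    refine (hbound _).trans ?_
    rw [map_sub, hs', sub_self, norm_zero, mul_zero]
  have hψe : ∀ l : Ival A, ψ (eK l) = f l := by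
    intro l
    have h1 := hψΦ (Finsupp.single l 1)
    have h2 : LK A (Finsupp.single l 1) = eK l := by
      simp [LK]
    have h3 : Φ (Finsupp.single l 1) = f l := by
      simp [Φ]
    rw [h2, h3] at h1
    exact h1
  -- the real functional
  let ι : C(K, ℝ) →L[ℝ] C(K, ℂ) := Complex.ofRealCLM.compLeftContinuous ℝ K
  have hι : ∀ (g : C(K, ℝ)) x, ι g x = (g x : ℂ) := fun g x => rfl
  let Λ : C(K, ℝ) →ₗ[ℝ] ℝ :=
    { toFun := fun g => (ψ (ι g)).re
      map_add' := fun g g' => by rw [map_add, map_add, Complex.add_re]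
      map_smul' := fun c g => by
        have : ι (c • g) = (c : ℂ) • ι g := by
          ext x
          simp [hι]
        rw [this, map_smul, smul_eq_mul, Complex.re_ofReal_mul]
        rfl }
  have hΛb : ∀ g, Λ g ≤ ‖ψ‖ * ‖g‖ := by
    intro g
    have h1 : ‖ι g‖ ≤ ‖g‖ := by
      rw [ContinuousMap.norm_le _ (norm_nonneg _)]
      intro x
      rw [hι, Complex.norm_real]
      exact ContinuousMap.norm_coe_le_norm _ _
    calc Λ g ≤ ‖ψ (ι g)‖ := (Complex.re_le_norm _)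
      _ ≤ ‖ψ‖ * ‖ι g‖ := ψ.le_opNorm _
      _ ≤ ‖ψ‖ * ‖g‖ := mul_le_mul_of_nonneg_left h1 (norm_nonneg _)
  obtain ⟨Λp, hΛp, hΛle⟩ := exists_pos_dominating Λ ‖ψ‖ (norm_nonneg _) hΛb
  have hj : ∀ l, Continuous fun x => ev l (jK x) := fun l => (eK l).continuous
  obtain ⟨μp, hμp, hμpe, hμpP⟩ := exists_measure Λp hΛp jK hj
  obtain ⟨μm, hμm, hμme, hμmP⟩ := exists_measure (Λp - Λ) (fun g hg => by
    rw [LinearMap.sub_apply]; linarith [hΛle g hg]) jK hj
  refine ⟨μp, μm, hμp, hμm, fun l => ?_, hμpP, hμmP⟩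
  rw [hμpe, hμme]
  simp only [LinearMap.sub_apply]
  -- real and imaginary parts of the characters
  have hre : ι ⟨fun x => (ev (l : ℝ) (jK x)).re, Complex.continuous_re.comp (hj l)⟩ =
      (1 / 2 : ℂ) • (eK (l : ℝ) + eK (opp l : ℝ)) := by
    ext x
    rw [hι]
    show (((eK (l : ℝ) x).re : ℝ) : ℂ) = (1 / 2 : ℂ) * (eK (l : ℝ) x + eK (-(l : ℝ)) x)
    rw [eK_neg, Complex.add_conj]
    push_cast; ring
  have him : ι ⟨fun x => (ev (l : ℝ) (jK x)).im, Complex.continuous_im.comp (hj l)⟩ =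
      (-I / 2 : ℂ) • (eK (l : ℝ) - eK (opp l : ℝ)) := by
    ext x
    rw [hι]
    show (((eK (l : ℝ) x).im : ℝ) : ℂ) = (-I / 2 : ℂ) * (eK (l : ℝ) x - eK (-(l : ℝ)) x)
    rw [eK_neg, Complex.sub_conj]
    push_cast
    linear_combination ((eK (l : ℝ) x).im : ℂ) * Complex.I_mul_I
  have hΛre : Λ ⟨fun x => (ev (l : ℝ) (jK x)).re, Complex.continuous_re.comp (hj l)⟩ = (f l).re := by
    show (ψ (ι _)).re = _
    rw [hre, map_smul, map_add, hψe, hψe, hherm, smul_eq_mul, Complex.add_conj]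
    simp
  have hΛim : Λ ⟨fun x => (ev (l : ℝ) (jK x)).im, Complex.continuous_im.comp (hj l)⟩ = (f l).im := by
    show (ψ (ι _)).re = _
    rw [him, map_smul, map_sub, hψe, hψe, hherm, smul_eq_mul, Complex.sub_conj]
    have : (-I / 2 * (((2 * (f l).im : ℝ) : ℂ) * I)) = ((f l).im : ℂ) := by
      push_cast
      linear_combination (-((f l).im : ℂ)) * Complex.I_mul_I
    rw [this, Complex.ofReal_re]
  push_cast
  rw [hΛre, hΛim]
  conv_lhs => rw [← Complex.re_add_im (f l)]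
  ring

end compactification

end Pool.Agent.Lib.MP_b1ee0a_an
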