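import Mathlib
import Pool.Agent.Lib.MP_b1ee0a_an.Good
import Pool.Agent.Lib.MP_b1ee0a_an.Flow

set_option autoImplicit false

namespace Pool.Agent.Lib.MP_b1ee0a_an

open MeasureTheory Filter Topology Complex ComplexConjugate ProbabilityTheory FourierTransform

/-- Pushing forward a real density. -/
lemma push_real {Y : Type*} [MeasurableSpace Y] (m : Measure Y) [IsFiniteMeasure m] {π : Y → G}
    (hπ : Measurable π) {W : Y → ℝ} (hW : Integrable W m) (hWm : Measurable W) :
    ∃ u : G → ℝ, Measurable u ∧ Integrable u (m.map π) ∧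
      ∀ φ : G → ℂ, Measurable φ → (∀ x, ‖φ x‖ ≤ 1) →
        ∫ x, φ x * u x ∂(m.map π) = ∫ y, φ (π y) * W y ∂m := by
  let mp := m.withDensity (fun y => ENNReal.ofReal (W y))
  let mn := m.withDensity (fun y => ENNReal.ofReal (-W y))
  have hfp : IsFiniteMeasure mp := isFiniteMeasure_withDensity_ofReal hW.2
  have hfn : IsFiniteMeasure mn := isFiniteMeasure_withDensity_ofReal hW.neg.2
  have hacp : mp.map π ≪ m.map π := (withDensity_absolutelyContinuous _ _).map hπ
  have hacn : mn.map π ≪ m.map π := (withDensity_absolutelyContinuous _ _).map hπ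
  refine ⟨fun x => ((mp.map π).rnDeriv (m.map π) x).toReal - ((mn.map π).rnDeriv (m.map π) x).toReal,
    ?_, ?_, ?_⟩
  · exact (Measure.measurable_rnDeriv _ _).ennreal_toReal.sub
      (Measure.measurable_rnDeriv _ _).ennreal_toReal
  · exact Measure.integrable_toReal_rnDeriv.sub Measure.integrable_toReal_rnDeriv
  · intro φ hφ hφ1
    have hφi : ∀ (σ : Measure G) [IsFiniteMeasure σ], Integrable φ σ := fun σ _ =>
      (integrable_const (1 : ℝ)).mono' hφ.aestronglyMeasurable (ae_of_all _ hφ1)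
    have e1 : ∀ x, φ x * (((((mp.map π).rnDeriv (m.map π) x).toReal -
        ((mn.map π).rnDeriv (m.map π) x).toReal : ℝ)) : ℂ) =
        ((mp.map π).rnDeriv (m.map π) x).toReal • φ x -
        ((mn.map π).rnDeriv (m.map π) x).toReal • φ x := by
      intro x
      simp only [Complex.real_smul]
      push_cast; ring
    simp_rw [e1]
    have hi1 : Integrable (fun x => ((mp.map π).rnDeriv (m.map π) x).toReal • φ x) (m.map π) :=
      (integrable_rnDeriv_smul_iff hacp).2 (hφi _)
    have hi2 : Integrable (fun x => ((mn.map π).rnDeriv (m.map π) x).toReal • φ x) (m.map π) :=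
      (integrable_rnDeriv_smul_iff hacn).2 (hφi _)
    rw [integral_sub hi1 hi2, integral_rnDeriv_smul hacp, integral_rnDeriv_smul hacn,
      integral_map hπ.aemeasurable hφ.aestronglyMeasurable,
      integral_map hπ.aemeasurable hφ.aestronglyMeasurable]
    have hWn : Measurable (fun y => ENNReal.ofReal (-W y)) := hWm.neg.ennreal_ofReal
    rw [integral_withDensity_eq_integral_toReal_smul hWm.ennreal_ofReal (ae_of_all _ fun _ => ENNReal.ofReal_lt_top),
      integral_withDensity_eq_integral_toReal_smul hWn (ae_of_all _ fun _ => ENNReal.ofReal_lt_top),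
      ← integral_sub]
    · refine integral_congr_ae (ae_of_all _ fun y => ?_)
      simp only [Complex.real_smul]
      rcases le_total 0 (W y) with h | h
      · rw [ENNReal.toReal_ofReal h, ENNReal.ofReal_of_nonpos (by linarith)]
        simp; ring
      · rw [ENNReal.ofReal_of_nonpos h, ENNReal.toReal_ofReal (by linarith)]
        simp; ring
    · refine (hW.abs).mono' ?_ (ae_of_all _ fun y => ?_)
      · exact (hWm.ennreal_ofReal.ennreal_toReal.aestronglyMeasurable).smul
          (hφ.comp hπ).aestronglyMeasurable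
      · rw [norm_smul, Real.norm_eq_abs]
        have h1 : |(ENNReal.ofReal (W y)).toReal| ≤ |W y| := by
          rw [abs_of_nonneg ENNReal.toReal_nonneg]
          rcases le_total 0 (W y) with h | h
          · rw [ENNReal.toReal_ofReal h]; exact le_abs_self _
          · rw [ENNReal.ofReal_of_nonpos h]; simp
        calc _ ≤ |W y| * 1 := mul_le_mul h1 (hφ1 _) (norm_nonneg _) (abs_nonneg _)
          _ = |W y| := mul_one _
    · refine (hW.abs).mono' ?_ (ae_of_all _ fun y => ?_)
      · exact (hWm.neg.ennreal_ofReal.ennreal_toReal.aestronglyMeasurable).smul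
          (hφ.comp hπ).aestronglyMeasurable
      · rw [norm_smul, Real.norm_eq_abs]
        have h1 : |(ENNReal.ofReal (-W y)).toReal| ≤ |W y| := by
          rw [abs_of_nonneg ENNReal.toReal_nonneg]
          rcases le_total 0 (-W y) with h | h
          · rw [ENNReal.toReal_ofReal h]; exact neg_le_abs _
          · rw [ENNReal.ofReal_of_nonpos h]; simp
        calc _ ≤ |W y| * 1 := mul_le_mul h1 (hφ1 _) (norm_nonneg _) (abs_nonneg _)
          _ = |W y| := mul_one _

/-- Pushing forward a complex density. -/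
lemma push_complex {Y : Type*} [MeasurableSpace Y] (m : Measure Y) [IsFiniteMeasure m] {π : Y → G}
    (hπ : Measurable π) {W : Y → ℂ} (hW : Integrable W m) (hWm : Measurable W) :
    ∃ u : G → ℂ, Measurable u ∧ Integrable u (m.map π) ∧
      ∀ φ : G → ℂ, Measurable φ → (∀ x, ‖φ x‖ ≤ 1) →
        ∫ x, φ x * u x ∂(m.map π) = ∫ y, φ (π y) * W y ∂m := by
  obtain ⟨u, hu, hui, huφ⟩ := push_real m hπ hW.re (Complex.measurable_re.comp hWm)
  obtain ⟨v, hv, hvi, hvφ⟩ := push_real m hπ hW.im (Complex.measurable_im.comp hWm)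
  refine ⟨fun x => u x + I * v x, ?_, ?_, ?_⟩
  · exact (Complex.measurable_ofReal.comp hu).add ((Complex.measurable_ofReal.comp hv).const_mul I)
  · exact hui.ofReal.add (hvi.ofReal.const_mul I)
  · intro φ hφ hφ1
    have h1 := huφ φ hφ hφ1
    have h2 := hvφ φ hφ hφ1
    have hb : ∀ (σ : Measure G) (g : G → ℝ) (ψ : G → ℂ),
        Measurable ψ → (∀ z, ‖ψ z‖ ≤ 1) → Integrable g σ → Integrable (fun z => ψ z * (g z : ℂ)) σ := by
      intro σ g ψ hψ hψ1 hg
      exact hg.ofReal.bdd_mul (c := 1) hψ.aestronglyMeasurable (ae_of_all _ hψ1)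
    have hb' : ∀ (σ : Measure Y) (g : Y → ℝ) (ψ : Y → ℂ),
        Measurable ψ → (∀ z, ‖ψ z‖ ≤ 1) → Integrable g σ → Integrable (fun z => ψ z * (g z : ℂ)) σ := by
      intro σ g ψ hψ hψ1 hg
      exact hg.ofReal.bdd_mul (c := 1) hψ.aestronglyMeasurable (ae_of_all _ hψ1)
    have e1 : ∀ x, φ x * ((u x : ℂ) + I * v x) = φ x * u x + I * (φ x * v x) := fun x => by ring
    simp_rw [e1]
    rw [integral_add (hb _ _ _ hφ hφ1 hui) ((hb _ _ _ hφ hφ1 hvi).const_mul I), integral_const_mul,
      h1, h2, ← integral_const_mul, ← integral_add]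
    · refine integral_congr_ae (ae_of_all _ fun y => ?_)
      simp only
      have : (W y : ℂ) = ((W y).re : ℂ) + ((W y).im : ℂ) * I := (Complex.re_add_im _).symm
      conv_rhs => rw [this]
      simp only [RCLike.re_to_complex, RCLike.im_to_complex]
      ring
    · exact hb' _ _ _ (hφ.comp hπ) (fun z => hφ1 _) hW.re
    · exact (hb' _ _ _ (hφ.comp hπ) (fun z => hφ1 _) hW.im).const_mul I

/-- A kernel with compactly supported transform. -/
lemma exists_kernel {U : Set ℝ} (hU : IsOpen U) {l₀ : ℝ} (hl₀ : l₀ ∈ U) :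
    ∃ k : ℝ → ℂ, Measurable k ∧ Integrable k ∧ ∃ H : ℝ → ℂ, Continuous H ∧ H l₀ = 1 ∧
      (∀ l, l ∉ U → H l = 0) ∧ ∀ l : ℝ, ∫ s : ℝ, cexp (I * l * s) * k s = H l := by
  obtain ⟨δ, hδ, hball⟩ := Metric.isOpen_iff.1 hU l₀ hl₀
  let b : ContDiffBump l₀ := ⟨δ / 4, δ / 2, by positivity, by linarith⟩
  have hbsupp : ∀ l, l ∉ U → b l = 0 := by
    intro l hl
    apply b.zero_of_le_dist
    by_contra hcon
    push Not at hcon
    exact hl (hball (Metric.mem_ball.2 (hcon.trans (by show δ / 2 < δ; linarith))))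
  have hcs : HasCompactSupport (fun l : ℝ => ((b l : ℝ) : ℂ)) :=
    b.hasCompactSupport.comp_left (g := fun x : ℝ => (x : ℂ)) Complex.ofReal_zero
  have hcd : ContDiff ℝ (⊤ : ℕ∞) (fun l : ℝ => ((b l : ℝ) : ℂ)) :=
    Complex.ofRealCLM.contDiff.comp b.contDiff
  let Hs : SchwartzMap ℝ ℂ := hcs.toSchwartzMap hcd
  have hHs : ∀ l, Hs l = ((b l : ℝ) : ℂ) := fun l => rfl
  let κ : SchwartzMap ℝ ℂ := 𝓕 Hs
  have hinv : ∀ l, Hs l = ∫ v : ℝ, cexp ((↑(2 * Real.pi * (v * l)) * I)) * κ v := by
    intro l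
    have h1 : 𝓕⁻ (𝓕 Hs) = Hs := FourierPair.fourierInv_fourier_eq Hs
    have h2 : (𝓕⁻ (𝓕 Hs) : SchwartzMap ℝ ℂ) l = Hs l := by rw [h1]
    rw [SchwartzMap.fourierInv_coe, Real.fourierInv_eq'] at h2
    rw [← h2]
    refine integral_congr_ae (ae_of_all _ fun v => ?_)
    simp only [smul_eq_mul]
    congr 2
    simp [mul_comm]
  have hπ : (0 : ℝ) < 2 * Real.pi := by positivity
  refine ⟨fun s => ((1 / (2 * Real.pi) : ℝ) : ℂ) * κ (s / (2 * Real.pi)), ?_, ?_, fun l => Hs l, ?_, ?_, ?_, ?_⟩
  · exact (κ.continuous.measurable.comp (measurable_id.div_const _)).const_mul _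
  · exact (κ.integrable.comp_div hπ.ne').const_mul _
  · exact Hs.continuous
  · show Hs l₀ = 1
    rw [hHs, b.one_of_mem_closedBall (Metric.mem_closedBall_self (by show 0 ≤ δ / 4; positivity))]
    simp
  · intro l hl
    show Hs l = 0
    rw [hHs, hbsupp l hl]; simp
  · intro l
    show ∫ s : ℝ, cexp (I * l * s) * (((1 / (2 * Real.pi) : ℝ) : ℂ) * κ (s / (2 * Real.pi))) = Hs l
    rw [hinv l]
    have h1 := Measure.integral_comp_div (fun v : ℝ => cexp ((↑(2 * Real.pi * (v * l)) * I)) * κ v) (2 * Real.pi)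
    rw [abs_of_pos hπ] at h1
    have h2 : (∫ v : ℝ, cexp ((↑(2 * Real.pi * (v * l)) * I)) * κ v) =
        (1 / (2 * Real.pi)) • ∫ (x : ℝ), cexp (↑(2 * Real.pi * (x / (2 * Real.pi) * l)) * I) * κ (x / (2 * Real.pi)) := by
      rw [h1, smul_smul, one_div_mul_cancel hπ.ne', one_smul]
    rw [h2, ← integral_smul]
    refine integral_congr_ae (ae_of_all _ fun s => ?_)
    simp only [Complex.real_smul]
    have h3 : (2 * Real.pi * (s / (2 * Real.pi) * l)) = s * l := by field_simp
    rw [h3]
    have h4 : cexp (I * l * s) = cexp (((s * l : ℝ) : ℂ) * I) := by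
      congr 1; push_cast; ring
    rw [h4]; ring

/-- **Vanishing.** -/
theorem vanish (ν : Measure G) [IsFiniteMeasure ν]
    (hν : ∀ C, MeasurableSet C → Good ν (C.indicator 1) → ν C = 0)
    {w : G → ℂ} (hwm : Measurable w) (hw : Integrable w ν) {U : Set ℝ} (hU : IsOpen U)
    (hF : AEMeasurable (F ν w) (volume.restrict U)) : ∀ l ∈ U, F ν w l = 0 := by
  intro l₀ hl₀
  obtain ⟨k, hkm, hki, H, hHc, hH1, hH0, hHk⟩ := exists_kernel hU hl₀
  let g : ℝ → ℝ := gaussianPDFReal 0 1
  have hgm : Measurable g := measurable_gaussianPDFReal 0 1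
  have hgpos : ∀ s, 0 < g s := fun s => gaussianPDFReal_pos 0 1 s one_ne_zero
  have hkg : Integrable (fun s => k s / g s) γ := by
    unfold γ
    rw [gaussianReal_of_var_ne_zero 0 one_ne_zero,
      integrable_withDensity_iff_integrable_smul' (measurable_gaussianPDF 0 1)
        (ae_of_all _ fun _ => gaussianPDF_lt_top)]
    refine hki.congr (ae_of_all _ fun s => ?_)
    simp only [toReal_gaussianPDF, Complex.real_smul]
    rw [mul_div_cancel₀]
    exact_mod_cast (hgpos s).ne'
  have hW : Integrable (fun p : G × ℝ => w p.1 * (k p.2 / g p.2)) (ν.prod γ) := hw.mul_prod hkg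
  have hWm : Measurable (fun p : G × ℝ => w p.1 * (k p.2 / g p.2)) :=
    (hwm.comp measurable_fst).mul ((hkm.comp measurable_snd).div
      (Complex.measurable_ofReal.comp (hgm.comp measurable_snd)))
  obtain ⟨u, hum, hui, huφ⟩ := push_complex (ν.prod γ) measurable_pi' hW hWm
  have hFu : ∀ l, F (smooth ν) u l = H l * F ν w l := by
    intro l
    have h1 := huφ (ev l) (measurable_ev l) (fun x => (norm_ev l x).le)
    show ∫ x, ev l x * u x ∂((ν.prod γ).map (fun p => T p.2 p.1)) = _
    rw [h1]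
    have e : ∀ p : G × ℝ, ev l (T p.2 p.1) * (w p.1 * (k p.2 / g p.2)) =
        (ev l p.1 * w p.1) * (cexp (I * l * p.2) * (k p.2 / g p.2)) := by
      intro p; rw [ev_T]; ring
    simp_rw [e]
    rw [integral_prod_mul (fun x : G => ev l x * w x) (fun s : ℝ => cexp (I * l * s) * (k s / g s)),
      mul_comm]
    congr 1
    rw [integral_gaussianReal_eq_integral_smul one_ne_zero, ← hHk l]
    refine integral_congr_ae (ae_of_all _ fun s => ?_)
    simp only [Complex.real_smul]
    have : (g s : ℂ) ≠ 0 := by exact_mod_cast (hgpos s).ne'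
    show (g s : ℂ) * (cexp (I * l * s) * (k s / g s)) = _
    field_simp
  have hgood : Good (smooth ν) u := by
    refine ⟨hui, ?_⟩
    have e : F (smooth ν) u = U.indicator (fun l => H l * F ν w l) := by
      funext l
      rw [hFu]
      by_cases hl : l ∈ U
      · rw [Set.indicator_of_mem hl]
      · rw [Set.indicator_of_notMem hl, hH0 l hl, zero_mul]
    rw [e, aemeasurable_indicator_iff hU.measurableSet]
    exact hHc.measurable.aemeasurable.mul hF
  -- hence u = 0
  have hno := smooth_no_good ν hν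
  have hzero : ∀ᵐ x ∂(smooth ν), u x = 0 := by
    have h1 : ∀ n : ℕ, smooth ν {x | 1 / ((n : ℝ) + 1) < ‖u x‖} = 0 := by
      intro n
      have hm : MeasurableSet {x | 1 / ((n : ℝ) + 1) < ‖u x‖} :=
        measurableSet_lt measurable_const hum.norm
      refine hno _ hm ?_
      have h2 := hgood.bdd_mul (b := fun x => {x | 1 / ((n : ℝ) + 1) < ‖u x‖}.indicator (fun x => (u x)⁻¹) x)
        (hum.inv.indicator hm) (B := (n : ℝ) + 1) (by
          intro x
          by_cases hx : x ∈ {x | 1 / ((n : ℝ) + 1) < ‖u x‖}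
          · rw [Set.indicator_of_mem hx, norm_inv]
            have hx' : 1 / ((n : ℝ) + 1) < ‖u x‖ := hx
            have hn : (0 : ℝ) < (n : ℝ) + 1 := by positivity
            rw [inv_le_comm₀ (lt_trans (by positivity) hx') hn, ← one_div]
            exact hx'.le
          · rw [Set.indicator_of_notMem hx, norm_zero]; positivity)
      refine h2.congr (ae_of_all _ fun x => ?_)
      by_cases hx : x ∈ {x | 1 / ((n : ℝ) + 1) < ‖u x‖}
      · have hx' : 1 / ((n : ℝ) + 1) < ‖u x‖ := hx
        have hne : u x ≠ 0 := by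
          rw [← norm_pos_iff]
          exact lt_trans (by positivity) hx'
        simp only [Set.indicator_of_mem hx]
        rw [inv_mul_cancel₀ hne]; rfl
      · simp only [Set.indicator_of_notMem hx]
        rw [zero_mul]
    rw [ae_iff]
    have h2 : {x | ¬ u x = 0} ⊆ ⋃ n : ℕ, {x | 1 / ((n : ℝ) + 1) < ‖u x‖} := by
      intro x hx
      have hpos : 0 < ‖u x‖ := norm_pos_iff.2 hx
      obtain ⟨n, hn⟩ := exists_nat_one_div_lt hpos
      exact Set.mem_iUnion.2 ⟨n, hn⟩
    exact measure_mono_null h2 (measure_iUnion_null h1)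
  have h3 : F (smooth ν) u l₀ = 0 := by
    simp only [F]
    rw [integral_eq_zero_of_ae]
    filter_upwards [hzero] with x hx
    rw [hx]; simp
  rw [hFu, hH1, one_mul] at h3
  exact h3

end Pool.Agent.Lib.MP_b1ee0a_an
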